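import Pool.Agent.MP_d5eec5_gt.H77.GBasic

/-! The points of the gaps of the runs can be pulled into the circle. -/

set_option autoImplicit false

namespace Pool.Agent.MP_d5eec5_gt.H77

open Pool.Agent.MP_d5eec5_gt.H48 Finset

namespace ZnA

open Classical in
/-- the indicator of a proposition -/
noncomputable def e (P : Prop) : ℕ := if P then 1 else 0

theorem e_pos {P : Prop} (h : P) : e P = 1 := if_pos h

theorem e_neg {P : Prop} (h : ¬ P) : e P = 0 := if_neg h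

theorem e_le (P : Prop) : e P ≤ 1 := by unfold e; split_ifs <;> simp

theorem of_e_one {P : Prop} (h : e P = 1) : P := by
  by_contra h'; rw [e_neg h'] at h; exact absurd h (by decide)

theorem of_e_zero {P : Prop} (h : e P = 0) : ¬ P := by
  intro h'; rw [e_pos h'] at h; exact absurd h (by decide)

/-- on one of the two letters at the vertex `0` -/
def Zn (x : ℚ) : Prop := x < 1 ∨ 2 < x

/-- the pairs that change their order -/
def inv (x : ℚ) (hx : Prop) (y : ℚ) (hy : Prop) : Prop :=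
  hx ∧ ¬ hy ∧ ((y < x ∧ x < 1) ∨ (2 < x ∧ x < y))

open Classical in
/-- the new position -/
noncomputable def mv (x : ℚ) (h : Prop) : ℚ :=
  if x < 1 then (if h then x / 2 else (1 + x) / 2)
  else if 2 < x then (if h then (3 + x) / 2 else 1 + x / 2) else x

theorem mv_lt {x y : ℚ} (hx hy : Prop) (x0 : 0 ≤ x) (x3 : x < 3) (y0 : 0 ≤ y) (y3 : y < 3)
    (hne : x ≠ y) : mv x hx < mv y hy ↔ ¬ (x < y ↔ (inv x hx y hy ∨ inv y hy x hx)) := by
  unfold mv inv
  rcases lt_or_gt_of_ne hne with h | h <;> have h' := not_lt.mpr h.le <;>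
    by_cases a1 : x < 1 <;> by_cases a2 : 2 < x <;> by_cases b1 : y < 1 <;> by_cases b2 : 2 < y <;>
    by_cases c1 : hx <;> by_cases c2 : hy <;>
    simp only [h, h', a1, a2, b1, b2, c1, c2, if_true, if_false, and_true, and_false,
      or_false, or_true, not_true, not_false_eq_true, iff_true,
      iff_false, not_lt, or_self, and_self, iff_self] <;>
    linarith

/-- an end of a chord: value, membership in the hull, and whether the chord is its outer chord -/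
structure Pt where
  x : ℚ
  h : Prop
  o : Prop

/-- a pair that changes order, seen from the outer chord -/
noncomputable def out (A C : Pt) : ℕ := e (C.o ∧ inv A.x A.h C.x C.h)

/-- a pair that changes order, seen from the inner chord -/
noncomputable def inn (A C : Pt) : ℕ := e (¬ C.o ∧ inv A.x A.h C.x C.h)

/-- the local facts on a chord -/
structure Loc (u v : ℚ) (A B : Pt) : Prop where
  rA : 0 ≤ A.x ∧ A.x < 3
  rB : 0 ≤ B.x ∧ B.x < 3
  z0 : ¬ (A.x < 1 ∧ B.x < 1)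
  z2 : ¬ (2 < A.x ∧ 2 < B.x)
  iA : ins u v A.x → A.h
  iB : ins u v B.x → B.h
  hA : A.h → Zn A.x
  hB : B.h → Zn B.x
  gA : A.h → ¬ ins u v A.x → B.h
  gB : B.h → ¬ ins u v B.x → A.h
  oA : Zn A.x → ¬ A.h → A.o → ¬ B.h
  oB : Zn B.x → ¬ B.h → B.o → ¬ A.h
  c : Zn A.x → Zn B.x → A.o → ¬ B.o

theorem Loc.symm {u v : ℚ} {A B : Pt} (L : Loc u v A B) : Loc u v B A :=
  ⟨L.rB, L.rA, fun h => L.z0 h.symm, fun h => L.z2 h.symm, L.iB, L.iA, L.hB, L.hA, L.gB, L.gA,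
    L.oB, L.oA, fun h1 h2 h3 h4 => L.c h2 h1 h4 h3⟩

theorem core {u v : ℚ} {A B C D : Pt} (ht : Thr u v) (L : Loc u v A B) (L' : Loc u v C D)
    (hBD : B.x ≠ D.x) (h : out A C = 1) :
    out B C = 0 ∧ out A D = 0 ∧ out B D = 0 ∧ out C A = 0 ∧ out D A = 0 ∧ out C B = 0 ∧
      out D B = 0 ∧ (inn B D = 0 → c1 A.x B.x C.x D.x = 1) := by
  obtain ⟨oC, hA, nC, ord⟩ := of_e_one h
  obtain ⟨t1, t2, t3, t4⟩ := ht
  have iC : ¬ ins u v C.x := fun h' => nC (L'.iA h')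
  have iA : ¬ ins u v A.x := by
    rintro (h' | h') <;> rcases ord with ⟨o1, o2⟩ | ⟨o1, o2⟩
    · exact iC (Or.inl (by linarith))
    · linarith
    · linarith
    · exact iC (Or.inr (by linarith))
  have hB := L.gA hA iA
  have zB := L.hB hB
  have zC : Zn C.x := by
    rcases ord with ⟨o1, o2⟩ | ⟨o1, o2⟩
    · exact Or.inl (by linarith)
    · exact Or.inr (by linarith)
  have nD := L'.oA zC nC oC
  have z0 := L.z0
  have z2 := L.z2
  have y0 := L'.z0
  have y2 := L'.z2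
  have k : inv B.x B.h D.x D.h → ¬ D.o := by
    rintro ⟨-, -, ⟨o1, o2⟩ | ⟨o1, o2⟩⟩
    · exact L'.c zC (Or.inl (by linarith)) oC
    · exact L'.c zC (Or.inr (by linarith)) oC
  refine ⟨e_neg ?_, e_neg ?_, e_neg fun h' => k h'.2 h'.1, e_neg fun h' => nC h'.2.1,
    e_neg fun h' => nD h'.2.1, e_neg fun h' => nC h'.2.1, e_neg fun h' => nD h'.2.1, fun h0 => ?_⟩
  · rintro ⟨-, -, -, ⟨q1, q2⟩ | ⟨q1, q2⟩⟩ <;> rcases ord with ⟨o1, o2⟩ | ⟨o1, o2⟩
    · exact z0 ⟨o2, q2⟩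
    · linarith
    · linarith
    · exact z2 ⟨o1, q1⟩
  · rintro ⟨-, -, -, ⟨q1, q2⟩ | ⟨q1, q2⟩⟩ <;> rcases ord with ⟨o1, o2⟩ | ⟨o1, o2⟩
    · exact y0 ⟨by linarith, by linarith⟩
    · linarith
    · linarith
    · exact y2 ⟨by linarith, by linarith⟩
  · have ni : ¬ inv B.x B.h D.x D.h := fun h' => of_e_zero h0 ⟨k h', h'⟩
    have ni' : ¬ ((D.x < B.x ∧ B.x < 1) ∨ (2 < B.x ∧ B.x < D.x)) := fun h' => ni ⟨hB, nD, h'⟩
    unfold c1
    rw [if_neg]
    rw [btw_iff, btw_iff]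
    rcases ord with ⟨o1, o2⟩ | ⟨o1, o2⟩
    · have b2 : 2 < B.x := zB.resolve_left fun h' => z0 ⟨o2, h'⟩
      have d1 : 1 ≤ D.x := not_lt.mp fun h' => y0 ⟨by linarith, h'⟩
      have d2 : D.x < B.x := lt_of_le_of_ne (not_lt.mp fun h' => ni' (Or.inr ⟨b2, h'⟩)) hBD.symm
      intro h'
      rcases h'.2 (Or.inl ⟨by linarith, d2⟩) with ⟨q1, q2⟩ | ⟨q1, q2⟩ <;> linarith
    · have b1 : B.x < 1 := zB.resolve_right fun h' => z2 ⟨o1, h'⟩
      have d2 : D.x ≤ 2 := not_lt.mp fun h' => y2 ⟨by linarith, h'⟩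
      have d1 : B.x < D.x := lt_of_le_of_ne (not_lt.mp fun h' => ni' (Or.inl ⟨h', b1⟩)) hBD
      intro h'
      rcases h'.2 (Or.inr ⟨d1, by linarith⟩) with ⟨q1, q2⟩ | ⟨q1, q2⟩ <;> linarith

theorem sw_eq (A C : Pt) : out A C + inn A C + out C A + inn C A =
    e (inv A.x A.h C.x C.h ∨ inv C.x C.h A.x A.h) := by
  unfold out inn e
  by_cases h1 : inv A.x A.h C.x C.h <;> by_cases h2 : inv C.x C.h A.x A.h
  · exact absurd h2.1 h1.2.1
  all_goals by_cases h3 : A.o <;> by_cases h4 : C.o <;> simp [h1, h2, h3, h4]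

theorem par (a b c d s t r q : Prop) [Decidable a] [Decidable b] [Decidable c] [Decidable d]
    [Decidable s] [Decidable t] [Decidable r] [Decidable q] :
    ((if ((¬ (a ↔ s) ↔ ¬ (b ↔ t)) ↔ (¬ (c ↔ r) ↔ ¬ (d ↔ q))) then 0 else 1) +
      (if ((a ↔ b) ↔ (c ↔ d)) then 0 else 1) + e s + e t + e r + e q) % 2 = 0 := by
  unfold e
  by_cases h1 : a <;> by_cases h2 : b <;> by_cases h3 : c <;> by_cases h4 : d <;>
    by_cases h5 : s <;> by_cases h6 : t <;> by_cases h7 : r <;> by_cases h8 : q <;>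
    simp [h1, h2, h3, h4, h5, h6, h7, h8]

theorem mv_ne {x y : ℚ} (hx hy : Prop) (x0 : 0 ≤ x) (x3 : x < 3) (y0 : 0 ≤ y) (y3 : y < 3)
    (hne : x ≠ y) : mv x hx ≠ mv y hy := by
  intro h
  have h1 := mv_lt hx hy x0 x3 y0 y3 hne
  have h2 := mv_lt hy hx y0 y3 x0 x3 hne.symm
  rw [h] at h1 h2
  rw [or_comm] at h2
  simp only [lt_irrefl, false_iff, not_not] at h1 h2
  rcases lt_or_gt_of_ne hne with h3 | h3
  · exact lt_asymm h3 (h2.2 (h1.1 h3))
  · exact lt_asymm h3 (h1.2 (h2.1 h3))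

theorem pair {u v : ℚ} {A B C D : Pt} (ht : Thr u v) (L : Loc u v A B) (L' : Loc u v C D)
    (h1 : A.x ≠ C.x) (h2 : A.x ≠ D.x) (h3 : B.x ≠ C.x) (h4 : B.x ≠ D.x) :
    c1 (mv A.x A.h) (mv B.x B.h) (mv C.x C.h) (mv D.x D.h) +
        ((out A C + out B C + (out A D + out B D)) + (out C A + out D A + (out C B + out D B))) ≤
      c1 A.x B.x C.x D.x +
        ((inn A C + inn B C + (inn A D + inn B D)) + (inn C A + inn D A + (inn C B + inn D B))) := by
  classical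
  have p0 : (c1 (mv A.x A.h) (mv B.x B.h) (mv C.x C.h) (mv D.x D.h) + c1 A.x B.x C.x D.x +
      e (inv A.x A.h C.x C.h ∨ inv C.x C.h A.x A.h) +
      e (inv B.x B.h C.x C.h ∨ inv C.x C.h B.x B.h) +
      e (inv A.x A.h D.x D.h ∨ inv D.x D.h A.x A.h) +
      e (inv B.x B.h D.x D.h ∨ inv D.x D.h B.x B.h)) % 2 = 0 := by
    rw [c1_eq h1 h2 h3 h4, c1_eq (mv_ne _ _ L.rA.1 L.rA.2 L'.rA.1 L'.rA.2 h1)
      (mv_ne _ _ L.rA.1 L.rA.2 L'.rB.1 L'.rB.2 h2) (mv_ne _ _ L.rB.1 L.rB.2 L'.rA.1 L'.rA.2 h3)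
      (mv_ne _ _ L.rB.1 L.rB.2 L'.rB.1 L'.rB.2 h4)]
    simp only [mv_lt _ _ L.rA.1 L.rA.2 L'.rA.1 L'.rA.2 h1,
      mv_lt _ _ L.rA.1 L.rA.2 L'.rB.1 L'.rB.2 h2, mv_lt _ _ L.rB.1 L.rB.2 L'.rA.1 L'.rA.2 h3,
      mv_lt _ _ L.rB.1 L.rB.2 L'.rB.1 L'.rB.2 h4]
    convert par _ _ _ _ _ _ _ _
  rw [← sw_eq, ← sw_eq, ← sw_eq, ← sw_eq] at p0
  have l1 := c1_le_one (mv A.x A.h) (mv B.x B.h) (mv C.x C.h) (mv D.x D.h)
  have l2 := c1_le_one A.x B.x C.x D.x
  have s1 := c1_swap_left A.x B.x C.x D.x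
  have s2 := c1_swap_right A.x B.x C.x D.x
  have s3 := c1_swap_right B.x A.x C.x D.x
  have s4 := c1_symm h1 h2 h3 h4
  have s5 := c1_swap_left C.x D.x A.x B.x
  have s6 := c1_swap_right C.x D.x A.x B.x
  have s7 := c1_swap_right D.x C.x A.x B.x
  by_cases q1 : out A C = 1
  · have := core ht L L' h4 q1; omega
  by_cases q2 : out B C = 1
  · have := core ht L.symm L' h2 q2; omega
  by_cases q3 : out A D = 1
  · have := core ht L L'.symm h3 q3; omega
  by_cases q4 : out B D = 1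
  · have := core ht L.symm L'.symm h1 q4; omega
  by_cases q5 : out C A = 1
  · have := core ht L' L h4.symm q5; omega
  by_cases q6 : out D A = 1
  · have := core ht L'.symm L h3.symm q6; omega
  by_cases q7 : out C B = 1
  · have := core ht L' L.symm h2.symm q7; omega
  by_cases q8 : out D B = 1
  · have := core ht L'.symm L.symm h1.symm q8; omega
  have m1 : out A C ≤ 1 := e_le _
  have m2 : out B C ≤ 1 := e_le _
  have m3 : out A D ≤ 1 := e_le _
  have m4 : out B D ≤ 1 := e_le _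
  have m5 : out C A ≤ 1 := e_le _
  have m6 : out D A ≤ 1 := e_le _
  have m7 : out C B ≤ 1 := e_le _
  have m8 : out D B ≤ 1 := e_le _
  omega

/-! ### Sums -/

theorem cover (m : ℕ) (φ : ℕ → Prop) [DecidablePred φ] (f : ℕ → ℕ) (h0 : f 0 = 0)
    (h1 : f (m + 1) = 0) :
    ∑ j ∈ range (m + 1), ((if φ j then f j else 0) + if φ (j + 1) then 0 else f (j + 1)) =
      ∑ a ∈ range (m + 2), f a := by
  have e1 : ∑ j ∈ range (m + 1), (if φ j then f j else 0) =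
      ∑ j ∈ range (m + 2), (if φ j then f j else 0) := by
    rw [sum_range_succ _ (m + 1), h1]; simp
  have e2 : ∑ j ∈ range (m + 1), (if φ (j + 1) then 0 else f (j + 1)) =
      ∑ j ∈ range (m + 2), (if φ j then 0 else f j) := by
    rw [sum_range_succ' _ (m + 1), h0]; simp
  rw [sum_add_distrib, e1, e2, ← sum_add_distrib]
  exact sum_congr rfl fun j _ => by split_ifs <;> simp

theorem tri (n : ℕ) (W : ℕ → ℕ → ℕ) (h : ∀ i < n, W i i = 0) :
    ∑ j ∈ range n, ∑ i ∈ range j, (W i j + W j i) = ∑ j ∈ range n, ∑ i ∈ range n, W i j := by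
  induction n with
  | zero => simp
  | succ n ih =>
    rw [sum_range_succ, ih fun i hi => h i (by omega), sum_range_succ, sum_range_succ _ n,
      h n (by omega)]
    simp only [sum_range_succ, sum_add_distrib]
    omega

/-- both counts of the pairs that change order agree -/
theorem count (m : ℕ) (ι : ℕ → ℕ → Prop) (φ : ℕ → Prop)
    (h0 : ∀ b ≤ m + 1, ¬ ι 0 b ∧ ¬ ι (m + 1) b ∧ ¬ ι b 0 ∧ ¬ ι b (m + 1)) :
    ∑ j ∈ range (m + 1), ∑ i ∈ range (m + 1), (if i % 2 = j % 2 then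
      e (φ j ∧ ι i j) + e (φ j ∧ ι (i + 1) j) +
        (e (¬ φ (j + 1) ∧ ι i (j + 1)) + e (¬ φ (j + 1) ∧ ι (i + 1) (j + 1))) else 0) =
      ∑ b ∈ range (m + 2), ∑ a ∈ range (m + 2), e (ι a b) := by
  classical
  rw [← cover m φ (fun b => ∑ a ∈ range (m + 2), e (ι a b))
    (sum_eq_zero fun a ha => e_neg (h0 a (by have := mem_range.mp ha; omega)).2.2.1)
    (sum_eq_zero fun a ha => e_neg (h0 a (by have := mem_range.mp ha; omega)).2.2.2)]
  refine sum_congr rfl fun j hj => ?_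
  have hj' := mem_range.mp hj
  have key : ∀ b ≤ m + 1, ∑ a ∈ range (m + 2), e (ι a b) =
      ∑ i ∈ range (m + 1), if i % 2 = j % 2 then e (ι i b) + e (ι (i + 1) b) else 0 := by
    intro b hb
    rw [← cover m (fun i => i % 2 = j % 2) (fun a => e (ι a b)) (e_neg (h0 b hb).1)
      (e_neg (h0 b hb).2.1)]
    refine sum_congr rfl fun i _ => ?_
    by_cases h : i % 2 = j % 2
    · rw [if_pos h, if_pos h, if_neg (by omega)]
    · rw [if_neg h, if_neg h, if_pos (by omega)]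
  simp only [key j (by omega), key (j + 1) (by omega)]
  by_cases a1 : φ j <;> by_cases a2 : φ (j + 1) <;>
    simp only [a1, a2, if_true, if_false, true_and, false_and, not_true, not_false_eq_true,
      e_neg not_false, add_zero, zero_add, ← sum_add_distrib, ite_self, sum_const_zero]
  exact sum_congr rfl fun i _ => by split_ifs <;> simp

/-! ### The placement -/

/-- the hull of the inside points of the runs -/
def H (u v : ℚ) (w : Wd) (p : ℕ → ℚ) (k : ℕ) : Prop :=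
  ins u v (p k) ∨ ∃ j a c, InRun w j a ∧ InRun w j c ∧ a < k ∧ k < c ∧ ins u v (p a) ∧ ins u v (p c)

/-- no inside point follows in the run -/
def O (u v : ℚ) (w : Wd) (p : ℕ → ℚ) (k : ℕ) : Prop :=
  ¬ ∃ j c, InRun w j k ∧ InRun w j c ∧ k ≤ c ∧ ins u v (p c)

section fit
variable {τ η : Fin 3} {w : Wd} {p : ℕ → ℚ} {u v : ℚ}

theorem letter (h : Fit τ η w p) {k : ℕ} (hk : k < w.length) :
    (w[k]? = some 0 ∧ 0 < p (k + 1) ∧ p (k + 1) < 1) ∨
      (w[k]? = some 1 ∧ 1 < p (k + 1) ∧ p (k + 1) < 2) ∨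
      (w[k]? = some 2 ∧ 2 < p (k + 1) ∧ p (k + 1) < 3) := by
  have h1 : w[k]? = some w[k] := List.getElem?_eq_getElem hk
  have h2 := h.mem k _ h1
  generalize w[k] = x at h1 h2
  fin_cases x
  · left; norm_num at h2; exact ⟨h1, h2⟩
  · right; left; norm_num at h2; exact ⟨h1, h2⟩
  · right; right; norm_num at h2; exact ⟨h1, h2⟩

theorem vert (x : Fin 3) : (x = 0 ∧ (x.val : ℚ) = 0) ∨ (x = 1 ∧ (x.val : ℚ) = 1) ∨
    (x = 2 ∧ (x.val : ℚ) = 2) := by
  fin_cases x <;> simp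

theorem rng (h : Fit τ η w p) {k : ℕ} (hk : k ≤ w.length + 1) : 0 ≤ p k ∧ p k < 3 := by
  rcases Nat.eq_zero_or_pos k with rfl | h0
  · rw [h.h0]
    rcases vert τ with ⟨-, e⟩ | ⟨-, e⟩ | ⟨-, e⟩ <;> rw [e] <;> norm_num
  rcases eq_or_lt_of_le hk with rfl | h1
  · rw [h.h1]
    rcases vert η with ⟨-, e⟩ | ⟨-, e⟩ | ⟨-, e⟩ <;> rw [e] <;> norm_num
  obtain ⟨k, rfl⟩ : ∃ k', k = k' + 1 := ⟨k - 1, by omega⟩
  rcases letter h (k := k) (by omega) with ⟨-, a, b⟩ | ⟨-, a, b⟩ | ⟨-, a, b⟩ <;>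
    constructor <;> linarith

theorem run_zn (h : Fit τ η w p) {j k : ℕ} (hr : InRun w j k) : Zn (p k) := by
  have h1 := hr.1
  have h2 := hr.le
  obtain ⟨k, rfl⟩ : ∃ k', k = k' + 1 := ⟨k - 1, by omega⟩
  rcases letter h (k := k) (by omega) with ⟨-, a, b⟩ | ⟨a, -⟩ | ⟨-, a, b⟩
  · exact Or.inl b
  · exact absurd a (hr.ne_one (by omega) (by omega))
  · exact Or.inr a

theorem zn_letter (h : Fit τ η w p) {k : ℕ} (hz : Zn (p (k + 1))) :
    w[k]? ≠ some 1 := by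
  intro h1
  have := h.mem k 1 h1
  norm_num at this
  rcases hz with hz | hz <;> linarith [this.1, this.2]

theorem first (hv : VG τ η w) (h : Fit τ η w p) : 0 < w.length ∧
    ((p 0 = 0 ∧ 1 < p 1 ∧ p 1 < 2) ∨ p 0 = 1 ∨ p 0 = 2) := by
  have h1 : w[0]? = some (τ + 1) := by rw [← List.head?_eq_getElem?]; exact hv.1
  refine ⟨(List.getElem?_eq_some_iff.1 h1).1, ?_⟩
  have h2 := h.mem 0 _ h1
  rw [h.h0]
  rcases vert τ with ⟨rfl, e⟩ | ⟨-, e⟩ | ⟨-, e⟩
  · left; norm_num at h2; exact ⟨e, h2⟩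
  · exact Or.inr (Or.inl e)
  · exact Or.inr (Or.inr e)

theorem last (hv : VG τ η w) (h : Fit τ η w p) :
    (p (w.length + 1) = 0 ∧ 1 < p w.length ∧ p w.length < 2) ∨ p (w.length + 1) = 1 ∨
      p (w.length + 1) = 2 := by
  have h0 := (first hv h).1
  have h1 : w[w.length - 1]? = some (η + 1) := by
    rw [← List.getLast?_eq_getElem?]; exact hv.2.1
  have h2 := h.mem _ _ h1
  rw [show w.length - 1 + 1 = w.length by omega] at h2
  rw [h.h1]
  rcases vert η with ⟨rfl, e⟩ | ⟨-, e⟩ | ⟨-, e⟩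
  · left; norm_num at h2; exact ⟨e, h2⟩
  · exact Or.inr (Or.inl e)
  · exact Or.inr (Or.inr e)

theorem both (hv : VG τ η w) (h : Fit τ η w p) {k : ℕ} (hk : k ≤ w.length) (h1 : Zn (p k))
    (h2 : Zn (p (k + 1))) : 0 < k ∧ k < w.length := by
  constructor
  · rcases Nat.eq_zero_or_pos k with rfl | h0
    · exfalso
      rcases (first hv h).2 with ⟨a, b, c⟩ | a | a
      · rcases h2 with h2 | h2 <;> norm_num at h2 <;> linarith
      · rcases h1 with h1 | h1 <;> linarith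
      · rcases h1 with h1 | h1 <;> linarith
    · exact h0
  · rcases eq_or_lt_of_le hk with rfl | h0
    · exfalso
      rcases last hv h with ⟨a, b, c⟩ | a | a
      · rcases h1 with h1 | h1 <;> linarith
      · rcases h2 with h2 | h2 <;> linarith
      · rcases h2 with h2 | h2 <;> linarith
    · exact h0

theorem both_run (hv : VG τ η w) (h : Fit τ η w p) {k : ℕ} (hk : k ≤ w.length) (h1 : Zn (p k))
    (h2 : Zn (p (k + 1))) : ∃ j, InRun w j k ∧ InRun w j (k + 1) := by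
  obtain ⟨h3, h4⟩ := both hv h hk h1 h2
  obtain ⟨k, rfl⟩ : ∃ k', k = k' + 1 := ⟨k - 1, by omega⟩
  obtain ⟨j, hj⟩ := exists_inRun (k := k) (by omega) (zn_letter h h1)
  exact ⟨j, hj, hj.succ h4 (zn_letter h h2)⟩

theorem both_ne (hv : VG τ η w) (h : Fit τ η w p) {k : ℕ} (hk : k ≤ w.length) :
    ¬ (p k < 1 ∧ p (k + 1) < 1) ∧ ¬ (2 < p k ∧ 2 < p (k + 1)) := by
  have key : Zn (p k) → Zn (p (k + 1)) → ¬ (p k < 1 ∧ p (k + 1) < 1) ∧
      ¬ (2 < p k ∧ 2 < p (k + 1)) := by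
    intro h1 h2
    obtain ⟨h3, h4⟩ := both hv h hk h1 h2
    obtain ⟨k, rfl⟩ : ∃ k', k = k' + 1 := ⟨k - 1, by omega⟩
    have hne : w[k]? ≠ w[k + 1]? := by
      have := List.isChain_iff_getElem.1 hv.2.2 k h4
      rw [List.getElem?_eq_getElem (by omega), List.getElem?_eq_getElem h4]
      simpa using this
    rcases letter h (k := k) (by omega) with ⟨a, b, c⟩ | ⟨a, b, c⟩ | ⟨a, b, c⟩ <;>
      rcases letter h (k := k + 1) h4 with ⟨a', b', c'⟩ | ⟨a', b', c'⟩ | ⟨a', b', c'⟩ <;>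
      first
        | exact absurd (a.trans a'.symm) hne
        | exact ⟨fun q => by linarith [q.1, q.2], fun q => by linarith [q.1, q.2]⟩
  exact ⟨fun q => (key (Or.inl q.1) (Or.inl q.2)).1 q, fun q => (key (Or.inr q.1) (Or.inr q.2)).2 q⟩

theorem H_zn (h : Fit τ η w p) (ht : Thr u v) {k : ℕ} (hk : H u v w p k) : Zn (p k) := by
  obtain ⟨t1, t2, t3, t4⟩ := ht
  rcases hk with (hk | hk) | ⟨j, a, c, ha, hc, h1, h2, -⟩
  · exact Or.inl (by linarith)
  · exact Or.inr (by linarith)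
  · exact run_zn h (hc.mono (ha.1.trans h1) h2.le)

theorem H_iff {j k : ℕ} (hr : InRun w j k) : H u v w p k ↔
    ∃ a c, InRun w j a ∧ InRun w j c ∧ a ≤ k ∧ k ≤ c ∧ ins u v (p a) ∧ ins u v (p c) := by
  constructor
  · rintro (hk | ⟨j', a, c, ha, hc, h1, h2, h3, h4⟩)
    · exact ⟨k, k, hr, hr, le_rfl, le_rfl, hk, hk⟩
    · obtain rfl := hr.unique (hc.mono (ha.1.trans h1) h2.le)
      exact ⟨a, c, ha, hc, h1.le, h2.le, h3, h4⟩
  · rintro ⟨a, c, ha, hc, h1, h2, h3, h4⟩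
    rcases eq_or_lt_of_le h1 with rfl | h1
    · exact Or.inl h3
    rcases eq_or_lt_of_le h2 with rfl | h2
    · exact Or.inl h4
    exact Or.inr ⟨j, a, c, ha, hc, h1, h2, h3, h4⟩

theorem loc (hv : VG τ η w) (h : Fit τ η w p) (ht : Thr u v) {k : ℕ} (hk : k ≤ w.length) :
    Loc u v ⟨p k, H u v w p k, O u v w p k⟩
      ⟨p (k + 1), H u v w p (k + 1), ¬ O u v w p (k + 1)⟩ := by
  refine ⟨rng h (by omega), rng h (by omega), (both_ne hv h hk).1, (both_ne hv h hk).2, Or.inl,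
    Or.inl, H_zn h ht, H_zn h ht, ?_, ?_, ?_, ?_, ?_⟩
  · rintro (h1 | ⟨j, a, c, ha, hc, h1, h2, h3, h4⟩) hn
    · exact absurd h1 hn
    · exact (H_iff (hc.mono (by have := ha.1; omega) h2)).2 ⟨a, c, ha, hc, by omega, h2, h3, h4⟩
  · rintro (h1 | ⟨j, a, c, ha, hc, h1, h2, h3, h4⟩) hn
    · exact absurd h1 hn
    · exact (H_iff (hc.mono (by have := ha.1; omega) (by omega))).2
        ⟨a, c, ha, hc, by omega, by omega, h3, h4⟩
  · intro h1 _ h3 h4
    obtain ⟨j, r1, r2⟩ := both_run hv h hk h1 (H_zn h ht h4)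
    obtain ⟨a, c, -, hc, -, h5, -, h6⟩ := (H_iff r2).1 h4
    exact h3 ⟨j, c, r1, hc, by omega, h6⟩
  · intro h1 h2 h3 h4
    obtain ⟨j, r1, r2⟩ := both_run hv h hk (H_zn h ht h4) h1
    obtain ⟨a, c, ha, -, h5, -, h6, -⟩ := (H_iff r1).1 h4
    obtain ⟨j', c', r3, hc, h7, h8⟩ := not_not.1 h3
    obtain rfl := r2.unique r3
    exact h2 ((H_iff r2).2 ⟨a, c', ha, hc, by omega, h7, h6, h8⟩)
  · intro h1 h2 h3 h4
    obtain ⟨j, r1, r2⟩ := both_run hv h hk h1 h2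
    obtain ⟨j', c', r3, hc, h7, h8⟩ := not_not.1 h4
    obtain rfl := r2.unique r3
    exact h3 ⟨j, c', r1, hc, by omega, h8⟩

theorem mv_vert (ht : Thr u v) (x : Fin 3) {P : Prop} (hP : ins u v (x.val : ℚ) → P) :
    mv (x.val : ℚ) P = x.val := by
  unfold mv
  rcases vert x with ⟨-, e⟩ | ⟨-, e⟩ | ⟨-, e⟩ <;> rw [e] at hP ⊢
  · rw [if_pos (by norm_num), if_pos (hP (Or.inl ht.1))]; norm_num
  · norm_num
  · norm_num

theorem fit_mv (h : Fit τ η w p) (ht : Thr u v) :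
    Fit τ η w fun k => mv (p k) (H u v w p k) := by
  refine ⟨?_, ?_, fun j x hx => ?_, fun a ha b hb hab => ?_⟩
  · have := mv_vert ht τ (P := H u v w p 0) fun q => Or.inl (h.h0 ▸ q)
    simpa only [h.h0] using this
  · have := mv_vert ht η (P := H u v w p (w.length + 1)) fun q => Or.inl (h.h1 ▸ q)
    simpa only [h.h1] using this
  · have h2 := h.mem j x hx
    unfold mv
    rcases vert x with ⟨-, e⟩ | ⟨-, e⟩ | ⟨-, e⟩ <;> rw [e] at h2 ⊢ <;> obtain ⟨h2, h3⟩ := h2 <;>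
      split_ifs <;> constructor <;> linarith
  · by_contra hne
    exact mv_ne _ _ (rng h ha).1 (rng h ha).2 (rng h hb).1 (rng h hb).2 (h.ne ha hb hne) hab

theorem ins_mv (h : Fit τ η w p) (ht : Thr u v) (k : ℕ) :
    ins (1 / 2) (5 / 2) (mv (p k) (H u v w p k)) ↔ H u v w p k := by
  have h1 := H_zn h ht (k := k)
  have h2 : ¬ H u v w p k → u < p k ∧ p k < v := fun q =>
    ⟨not_le.1 fun q' => q (Or.inl (Or.inl q')), not_le.1 fun q' => q (Or.inl (Or.inr q'))⟩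
  obtain ⟨t1, t2, t3, t4⟩ := ht
  unfold mv ins
  by_cases hk : H u v w p k
  · simp only [hk, if_true, iff_true]
    split_ifs with a b
    · left; linarith
    · right; linarith
    · exact absurd (h1 hk) (not_or.2 ⟨a, b⟩)
  · obtain ⟨h3, h4⟩ := h2 hk
    simp only [hk, if_false, iff_false, not_or, not_le]
    split_ifs with a b <;> constructor <;> linarith

theorem no_vert (h : Fit τ η w p) (ht : Thr u v) (x : Fin 3) {a b : ℕ} (ha : p a = x.val)
    (hb : b ≤ w.length + 1) : ¬ inv (p a) (H u v w p a) (p b) (H u v w p b) ∧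
      ¬ inv (p b) (H u v w p b) (p a) (H u v w p a) := by
  have h0 := (rng h hb).1
  constructor
  · rintro ⟨-, -, ⟨q1, q2⟩ | ⟨q1, q2⟩⟩ <;> rcases vert x with ⟨-, e⟩ | ⟨-, e⟩ | ⟨-, e⟩ <;> linarith
  · rintro ⟨-, q, ⟨q1, q2⟩ | ⟨q1, q2⟩⟩ <;> rcases vert x with ⟨-, e⟩ | ⟨-, e⟩ | ⟨-, e⟩
    · exact q (Or.inl (Or.inl (by linarith [ht.1])))
    all_goals linarith

theorem diag {x y : ℚ} (P Q : Prop) (h0 : ¬ (x < 1 ∧ y < 1)) (h2 : ¬ (2 < x ∧ 2 < y)) :
    ¬ inv x P x P ∧ ¬ inv y Q y Q ∧ ¬ inv x P y Q ∧ ¬ inv y Q x P := by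
  refine ⟨fun q => q.2.1 q.1, fun q => q.2.1 q.1, ?_, ?_⟩ <;>
    rintro ⟨-, -, ⟨q1, q2⟩ | ⟨q1, q2⟩⟩
  · exact h0 ⟨q2, by linarith⟩
  · exact h2 ⟨q1, by linarith⟩
  · exact h0 ⟨by linarith, q2⟩
  · exact h2 ⟨by linarith, q1⟩

theorem X_mv (hv : VG τ η w) (h : Fit τ η w p) (ht : Thr u v) :
    X w.length (fun k => mv (p k) (H u v w p k)) ≤ X w.length p := by
  set ι : ℕ → ℕ → Prop := fun a b => inv (p a) (H u v w p a) (p b) (H u v w p b) with hι
  set W : (ℕ → Prop) → ℕ → ℕ → ℕ := fun φ i j => if i % 2 = j % 2 then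
      e (φ j ∧ ι i j) + e (φ j ∧ ι (i + 1) j) +
        (e (¬ φ (j + 1) ∧ ι i (j + 1)) + e (¬ φ (j + 1) ∧ ι (i + 1) (j + 1))) else 0 with hW
  have hc : ∀ φ : ℕ → Prop, ∑ j ∈ range (w.length + 1), ∑ i ∈ range j, (W φ i j + W φ j i) =
      ∑ b ∈ range (w.length + 2), ∑ a ∈ range (w.length + 2), e (ι a b) := by
    intro φ
    rw [tri, ← count w.length ι φ fun b hb => ⟨(no_vert h ht τ h.h0 hb).1,
      (no_vert h ht η h.h1 hb).1, (no_vert h ht τ h.h0 hb).2, (no_vert h ht η h.h1 hb).2⟩]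
    intro i hi
    obtain ⟨d1, d2, d3, d4⟩ := diag (H u v w p i) (H u v w p (i + 1))
      (both_ne hv h (k := i) (by omega)).1 (both_ne hv h (k := i) (by omega)).2
    simp only [hW, if_true]
    rw [e_neg fun q => d1 q.2, e_neg fun q => d4 q.2, e_neg fun q => d3 q.2, e_neg fun q => d2 q.2]
  have key : X w.length (fun k => mv (p k) (H u v w p k)) +
      ∑ j ∈ range (w.length + 1), ∑ i ∈ range j, (W (O u v w p) i j + W (O u v w p) j i) ≤
      X w.length p + ∑ j ∈ range (w.length + 1), ∑ i ∈ range j,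
        (W (fun k => ¬ O u v w p k) i j + W (fun k => ¬ O u v w p k) j i) := by
    unfold X
    simp only [← sum_add_distrib]
    refine sum_le_sum fun j hj => sum_le_sum fun i hi => ?_
    have hj' := mem_range.mp hj
    have hi' := mem_range.mp hi
    by_cases hp : i % 2 = j % 2
    · have n1 : p i ≠ p j := h.ne (by omega) (by omega) (by omega)
      have n2 : p i ≠ p (j + 1) := h.ne (by omega) (by omega) (by omega)
      have n3 : p (i + 1) ≠ p j := h.ne (by omega) (by omega) (by omega)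
      have n4 : p (i + 1) ≠ p (j + 1) := h.ne (by omega) (by omega) (by omega)
      have k := pair ht (loc hv h ht (k := i) (by omega)) (loc hv h ht (k := j) (by omega))
        n1 n2 n3 n4
      simp only [out, inn] at k
      simp only [hW, hι, if_pos hp, if_pos hp.symm]
      exact k
    · simp only [hW, if_neg hp, if_neg (Ne.symm hp), le_refl]
  rw [hc, hc] at key
  omega

end fit

end ZnA

theorem zn : StmtZn := by
  intro τ η w p u v hv h ht
  refine ⟨fun k => ZnA.mv (p k) (ZnA.H u v w p k), 1 / 2, 5 / 2, ?_, ZnA.fit_mv h ht,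
    ZnA.X_mv hv h ht, ?_, ?_⟩
  · unfold Thr; norm_num
  · ext j
    simp only [mem_met, ZnA.ins_mv h ht]
    constructor
    · rintro ⟨k, h1, h2⟩
      obtain ⟨a, c, ha, -, -, -, h3, -⟩ := (ZnA.H_iff h1).1 h2
      exact ⟨a, ha, h3⟩
    · rintro ⟨k, h1, h2⟩
      exact ⟨k, h1, Or.inl h2⟩
  · intro j a b c ha hc h1 h2
    simp only [ZnA.ins_mv h ht]
    intro h3 h4
    obtain ⟨a', -, ha', -, h5, -, h6, -⟩ := (ZnA.H_iff ha).1 h3
    obtain ⟨-, c', -, hc', -, h7, -, h8⟩ := (ZnA.H_iff hc).1 h4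
    exact Or.inr ⟨j, a', c', ha', hc', by omega, by omega, h6, h8⟩

end Pool.Agent.MP_d5eec5_gt.H77
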